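import Pool.Agent.MP_aaf698_co.Defs

namespace Pool.Agent.MP_aaf698_co

open Function Set

theorem realizable_iff_splitting {V : Type} (m : V → V → ℕ) :
    Realizable m ↔ ∃ (W : Type) (_ : Finite W) (K : SimpleGraph W) (π : W → V),
      GoodSplitting m K π := by
  classical
  constructor
  · rintro ⟨W, E, C, hW, hE, hC, ends, c, φ, h⟩
    have hπ : ∀ x, ∃ u, φ u = palette ends c x := fun x => by
      have : palette ends c x ∈ range φ := h.range_eq ▸ mem_range_self x
      exact this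
    choose π hπ using hπ
    let K : SimpleGraph W := SimpleGraph.fromEdgeSet (range ends)
    have hK : K.edgeSet = range ends := by
      rw [SimpleGraph.edgeSet_fromEdgeSet]
      ext t
      constructor
      · exact fun h => h.1
      · rintro ⟨e, rfl⟩; exact ⟨⟨e, rfl⟩, h.loopless e⟩
    let M : C → K.Subgraph := fun a =>
      { verts := {x | a ∈ palette ends c x}
        Adj := fun x y => ∃ e, ends e = s(x, y) ∧ c e = a
        adj_sub := by
          rintro x y ⟨e, he, -⟩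
          rw [← SimpleGraph.mem_edgeSet, hK]
          exact ⟨e, he⟩
        edge_vert := by
          rintro x y ⟨e, he, hc⟩
          exact ⟨e, by rw [he]; simp, hc⟩
        symm := ⟨by
          rintro x y ⟨e, he, hc⟩
          exact ⟨e, by rw [he, Sym2.eq_swap], hc⟩⟩ }
    have hM : ∀ a, Saturated π (M a) := fun a => by
      refine ⟨fun x hx => ?_, fun x y hxy => ?_⟩
      · obtain ⟨e, he, hc⟩ := hx
        obtain ⟨y, hy⟩ := Sym2.mem_iff_exists.1 he
        refine ⟨y, ⟨e, hy, hc⟩, ?_⟩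
        rintro z ⟨f, hf, hf'⟩
        by_cases hef : e = f
        · subst hef
          exact (Sym2.congr_right.1 (hy.symm.trans hf)).symm
        · exact absurd (hc.trans hf'.symm) (h.proper e f x hef he (by rw [hf]; simp))
      · change a ∈ palette ends c x ↔ a ∈ palette ends c y
        rw [← hπ, ← hπ, hxy]
    refine ⟨W, hW, K, π, fun u => ?_, fun u v => ?_, fun x y hxy => ?_, fun x y hxy => ?_⟩
    · have : φ u ∈ range (palette ends c) := h.range_eq ▸ mem_range_self u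
      obtain ⟨x, hx⟩ := this
      exact ⟨x, h.inj (by rw [hπ, hx])⟩
    · rw [← h.count u v, hK]
      congr 1
      ext t
      have e : palette ends c = φ ∘ π := funext fun x => (hπ x).symm
      simp only [mem_ofPred_eq, e, ← Sym2.map_map]
      rw [show s(φ u, φ v) = Sym2.map φ s(u, v) from rfl, (Sym2.map.injective h.inj).eq_iff]
    · rw [← SimpleGraph.mem_edgeSet, hK] at hxy
      obtain ⟨e, he⟩ := hxy
      exact ⟨M (c e), hM _, e, he, rfl⟩
    · by_contra hc
      push Not at hc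
      refine hxy (h.inj ?_)
      rw [hπ, hπ]
      ext a
      exact hc (M a) (hM a)
  · rintro ⟨W, hW, K, π, h⟩
    let C := {M : K.Subgraph // Saturated π M}
    let E := {p : C × Sym2 W // p.2 ∈ p.1.1.edgeSet}
    choose r hr using h.surj
    have hp : ∀ x, palette (fun e : E => e.1.2) (fun e => e.1.1) x = {M : C | x ∈ M.1.verts} := by
      intro x
      ext M
      constructor
      · rintro ⟨⟨⟨M', t⟩, ht⟩, hx, rfl⟩
        obtain ⟨y, rfl⟩ := Sym2.mem_iff_exists.1 hx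
        exact M'.1.edge_vert ht
      · intro hx
        obtain ⟨y, hy, -⟩ := M.2.1 hx
        exact ⟨⟨(M, s(x, y)), hy⟩, by simp, rfl⟩
    have e : palette (fun e : E => e.1.2) (fun e => e.1.1) =
        (fun u => {M : C | r u ∈ M.1.verts}) ∘ π := by
      funext x
      rw [hp]
      ext M
      exact M.2.2 x (r (π x)) (hr _).symm
    have hinj : Injective (fun u => {M : C | r u ∈ M.1.verts}) := fun u v huv => by
      by_contra hne
      obtain ⟨M, h1, h2⟩ := h.separate (r u) (r v) (by rwa [hr, hr])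
      exact h2 (Set.ext_iff.1 huv ⟨M, h1⟩)
    have hfin : Finite K.Subgraph := by
      refine Finite.of_injective (fun M : K.Subgraph => (M.verts, M.Adj)) fun M N hMN => ?_
      simp only [Prod.mk.injEq] at hMN
      exact SimpleGraph.Subgraph.ext hMN.1 hMN.2
    refine ⟨W, E, C, hW, inferInstance, inferInstance, fun e => e.1.2, fun e => e.1.1,
      fun u => {M : C | r u ∈ M.1.verts}, fun e => ?_, ?_, hinj, ?_, fun u v => ?_⟩
    · exact K.not_isDiag_of_mem_edgeSet (e.1.1.1.edgeSet_subset e.2)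
    · rintro ⟨⟨M, t⟩, ht⟩ ⟨⟨N, t'⟩, ht'⟩ x hne hx hx' rfl
      obtain ⟨y, rfl⟩ := Sym2.mem_iff_exists.1 hx
      obtain ⟨z, rfl⟩ := Sym2.mem_iff_exists.1 hx'
      obtain rfl : y = z := (M.2.1 (M.1.edge_vert ht)).unique ht ht'
      exact hne rfl
    · rw [e, range_comp, (show Surjective π from fun u => ⟨r u, hr u⟩).range_eq, image_univ]
    · rw [← h.count u v]
      congr 1
      ext t
      simp only [mem_ofPred_eq, e, ← Sym2.map_map]
      rw [show s({M : C | r u ∈ M.1.verts}, {M : C | r v ∈ M.1.verts}) =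
        Sym2.map (fun u => {M : C | r u ∈ M.1.verts}) s(u, v) from rfl,
        (Sym2.map.injective hinj).eq_iff]
      refine and_congr_left fun _ => ⟨?_, fun ht => ?_⟩
      · rintro ⟨e, rfl⟩
        exact e.1.1.1.edgeSet_subset e.2
      · induction t with
        | h x y =>
          obtain ⟨M, h1, h2⟩ := h.cover x y ht
          exact ⟨⟨(⟨M, h1⟩, s(x, y)), h2⟩, rfl⟩

/-- Realizations with colour classes given as relations. -/
structure Core {V X C : Type} (S : Set V) (m : V → V → ℕ) (W : Set X) (π : X → V)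
    (R : C → X → X → Prop) : Prop where
  fin : W.Finite
  mem : ∀ c x y, R c x y → x ∈ W
  symm : ∀ c x y, R c x y → R c y x
  func : ∀ c x y z, R c x y → R c x z → y = z
  img : π '' W = S
  pal : ∀ x ∈ W, ∀ y ∈ W, π x = π y ↔ ∀ c, ((∃ z, R c x z) ↔ ∃ z, R c y z)
  count : ∀ u ∈ S, ∀ v ∈ S,
    {p : X × X | π p.1 = u ∧ π p.2 = v ∧ ∃ c, R c p.1 p.2}.ncard = m u v

def HasCore {V : Type} (S : Set V) (m : V → V → ℕ) : Prop :=
  ∃ (X C : Type) (W : Set X) (π : X → V) (R : C → X → X → Prop), Core S m W π R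

theorem count_pairs {V W : Type} [Finite W] (K : SimpleGraph W) (π : W → V) (u v : V) (n : ℕ)
    (h : u = v → n = 0) : {t ∈ K.edgeSet | t.map π = s(u, v)}.ncard = n ↔
      {p : W × W | π p.1 = u ∧ π p.2 = v ∧ K.Adj p.1 p.2}.ncard = n := by
  have e : {t ∈ K.edgeSet | t.map π = s(u, v)} =
      (fun p : W × W => s(p.1, p.2)) '' {p : W × W | π p.1 = u ∧ π p.2 = v ∧ K.Adj p.1 p.2} := by
    ext t
    induction t with
    | h x y =>
      simp only [mem_ofPred_eq, SimpleGraph.mem_edgeSet, Sym2.map_mk, Sym2.eq_iff, mem_image]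
      constructor
      · rintro ⟨a, ⟨b, c⟩ | ⟨b, c⟩⟩
        · exact ⟨(x, y), ⟨b, c, a⟩, Or.inl ⟨rfl, rfl⟩⟩
        · exact ⟨(y, x), ⟨c, b, a.symm⟩, Or.inr ⟨rfl, rfl⟩⟩
      · rintro ⟨p, ⟨a, b, c⟩, ⟨rfl, rfl⟩ | ⟨rfl, rfl⟩⟩
        · exact ⟨c, Or.inl ⟨a, b⟩⟩
        · exact ⟨c.symm, Or.inr ⟨b, a⟩⟩
  rw [e]
  by_cases huv : u = v
  · rw [h huv, ncard_eq_zero, ncard_eq_zero, image_eq_empty]
  · rw [InjOn.ncard_image]
    rintro ⟨x, y⟩ ⟨a, b, -⟩ ⟨x', y'⟩ ⟨a', b', -⟩ hh
    simp only [Sym2.eq_iff] at hh a b a' b'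
    rcases hh with ⟨rfl, rfl⟩ | ⟨rfl, rfl⟩
    · rfl
    · exact absurd (a.symm.trans b') huv

theorem realizable_iff_core {V : Type} (m : V → V → ℕ) (h0 : ∀ u, m u u = 0) :
    Realizable m ↔ HasCore univ m := by
  classical
  rw [realizable_iff_splitting]
  constructor
  · rintro ⟨W, hW, K, π, h⟩
    have hv : ∀ (M : {M : K.Subgraph // Saturated π M}) x, (∃ z, M.1.Adj x z) ↔ x ∈ M.1.verts :=
      fun M x => ⟨fun ⟨_, hz⟩ => M.1.edge_vert hz, fun hx => (M.2.1 hx).exists⟩
    refine ⟨W, {M : K.Subgraph // Saturated π M}, univ, π, fun M => M.1.Adj, toFinite _,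
      fun _ _ _ _ => trivial, fun M x y h => h.symm,
      fun M x y z a b => (M.2.1 (M.1.edge_vert a)).unique a b, by
        rw [image_univ, h.surj.range_eq], fun x _ y _ => ?_, fun u _ v _ => ?_⟩
    · simp only [hv]
      refine ⟨fun e M => M.2.2 x y e, fun e => ?_⟩
      by_contra hne
      obtain ⟨M, h1, h2⟩ := h.separate x y hne
      exact h2 (e ⟨M, h1⟩)
    · rw [← (count_pairs K π u v _ (by rintro rfl; exact h0 u)).1 (h.count u v)]
      congr 1
      ext p
      refine and_congr_right fun _ => and_congr_right fun _ => ⟨fun ⟨M, hM⟩ => M.1.adj_sub hM,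
        fun hp => ?_⟩
      obtain ⟨M, h1, h2⟩ := h.cover _ _ hp
      exact ⟨⟨M, h1⟩, h2⟩
  · rintro ⟨X, C, W, π, R, h⟩
    have hfin : ∀ u v, {p : X × X | π p.1 = u ∧ π p.2 = v ∧ ∃ c, R c p.1 p.2}.Finite :=
      fun u v => (h.fin.prod h.fin).subset fun p ⟨_, _, c, hc⟩ =>
        ⟨h.mem _ _ _ hc, h.mem _ _ _ (h.symm _ _ _ hc)⟩
    have irr : ∀ c x, ¬ R c x x := fun c x hx => by
      have := h.count (π x) trivial (π x) trivial
      rw [h0, ncard_eq_zero (hfin _ _)] at this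
      exact (this ▸ (⟨rfl, rfl, c, hx⟩ : (x, x) ∈
        {p : X × X | π p.1 = π x ∧ π p.2 = π x ∧ ∃ c, R c p.1 p.2}) : (x, x) ∈ (∅ : Set (X × X)))
    let K : SimpleGraph W := ⟨fun x y => ∃ c, R c x y, ⟨fun x y ⟨c, hc⟩ => ⟨c, h.symm _ _ _ hc⟩⟩,
      ⟨fun x ⟨c, hc⟩ => irr c x hc⟩⟩
    let M : C → K.Subgraph := fun c =>
      { verts := {x | ∃ z, R c x z}
        Adj := fun x y => R c x y
        adj_sub := fun hxy => ⟨c, hxy⟩
        edge_vert := fun hxy => ⟨_, hxy⟩
        symm := ⟨fun x y hxy => h.symm _ _ _ hxy⟩ }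
    have hM : ∀ c, Saturated (fun x : W => π x) (M c) := fun c =>
      ⟨fun x ⟨z, hz⟩ => ⟨⟨z, h.mem _ _ _ (h.symm _ _ _ hz)⟩, hz,
        fun y hy => Subtype.ext (h.func _ _ _ _ hy hz)⟩,
        fun x y e => (h.pal x x.2 y y.2).1 e c⟩
    have := h.fin.to_subtype
    refine ⟨W, this, K, fun x => π x, fun u => ?_, fun u v => ?_,
      fun x y ⟨c, hc⟩ => ⟨M c, hM c, hc⟩, fun x y hne => ?_⟩
    · obtain ⟨x, hx, e⟩ : u ∈ π '' W := h.img ▸ trivial
      exact ⟨⟨x, hx⟩, e⟩
    · rw [count_pairs K _ u v _ (by rintro rfl; exact h0 u), ← h.count u trivial v trivial,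
        ← ncard_image_of_injective _ (f := Prod.map Subtype.val Subtype.val)
          (Subtype.val_injective.prodMap Subtype.val_injective)]
      congr 1
      ext ⟨x, y⟩
      constructor
      · rintro ⟨p, hp, e⟩
        rw [← e]; exact hp
      · rintro ⟨a, b, c, hc⟩
        exact ⟨(⟨x, h.mem _ _ _ hc⟩, ⟨y, h.mem _ _ _ (h.symm _ _ _ hc)⟩), ⟨a, b, c, hc⟩, rfl⟩
    · by_contra hc
      push Not at hc
      exact hne ((h.pal x x.2 y y.2).2 fun c => hc (M c) (hM c))

/-- Changing the vertices of the realization. -/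
theorem Core.comap {V X Y C : Type} {S : Set V} {m : V → V → ℕ} {W : Set X} {π : X → V}
    {R : C → X → X → Prop} (h : Core S m W π R) {U : Set Y} (hU : U.Finite) (f : Y → X)
    (hf : InjOn f U) (h1 : MapsTo f U W) (h2 : ∀ c x y, R c x y → x ∈ f '' U)
    (h3 : S ⊆ π '' (f '' U)) :
    Core S m U (π ∘ f) (fun c a b => a ∈ U ∧ b ∈ U ∧ R c (f a) (f b)) where
  fin := hU
  mem := fun _ _ _ h => h.1
  symm := fun _ _ _ ⟨a, b, c⟩ => ⟨b, a, h.symm _ _ _ c⟩
  func := fun _ _ _ _ ⟨_, b, c⟩ ⟨_, b', c'⟩ => hf b b' (h.func _ _ _ _ c c')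
  img := by
    rw [image_comp]
    exact Subset.antisymm (h.img ▸ image_mono h1.image_subset) h3
  pal := fun x hx y hy => by
    have key : ∀ c, ∀ x ∈ U, (∃ z, x ∈ U ∧ z ∈ U ∧ R c (f x) (f z)) ↔ ∃ z, R c (f x) z :=
      fun c x hx => ⟨fun ⟨z, _, _, hz⟩ => ⟨_, hz⟩, fun ⟨z, hz⟩ => by
        obtain ⟨w, hw, rfl⟩ := h2 _ _ _ (h.symm _ _ _ hz)
        exact ⟨w, hx, hw, hz⟩⟩
    simp only [key _ x hx, key _ y hy]
    exact h.pal _ (h1 hx) _ (h1 hy)
  count := fun u hu v hv => by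
    rw [← h.count u hu v hv, ← InjOn.ncard_image (f := Prod.map f f)]
    · congr 1
      ext ⟨x, y⟩
      constructor
      · rintro ⟨p, ⟨a, b, c, -, -, hc⟩, e⟩
        rw [← e]; exact ⟨a, b, c, hc⟩
      · rintro ⟨a, b, c, hc⟩
        obtain ⟨x', hx, rfl⟩ := h2 _ _ _ hc
        obtain ⟨y', hy, rfl⟩ := h2 _ _ _ (h.symm _ _ _ hc)
        exact ⟨(x', y'), ⟨a, b, c, hx, hy, hc⟩, rfl⟩
    · rintro p ⟨-, -, c, a, b, -⟩ q ⟨-, -, c', a', b', -⟩ e
      exact Prod.ext (hf a a' (congrArg Prod.fst e)) (hf b b' (congrArg Prod.snd e))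

/-- Changing the names of the vertices of the multigraph. -/
theorem hasCore_comp {V V' : Type} (m : V → V → ℕ) {g : V' → V} (hg : Injective g) :
    HasCore univ (fun u v => m (g u) (g v)) ↔ HasCore (range g) m := by
  constructor
  · rintro ⟨X, C, W, π, R, h⟩
    refine ⟨X, C, W, g ∘ π, R, h.fin, h.mem, h.symm, h.func, by
      rw [image_comp, h.img, image_univ], fun x hx y hy => ?_, ?_⟩
    · rw [← h.pal x hx y hy]; exact hg.eq_iff
    · rintro _ ⟨u, rfl⟩ _ ⟨v, rfl⟩
      simpa only [comp, hg.eq_iff] using h.count u trivial v trivial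
  · rintro ⟨X, C, W, π, R, h⟩
    have h' := h.comap (U := (univ : Set W)) (by have := h.fin.to_subtype; exact toFinite _)
      Subtype.val Subtype.val_injective.injOn (fun x _ => x.2)
      (fun c x y hc => ⟨⟨x, h.mem _ _ _ hc⟩, trivial, rfl⟩) (by simp [h.img])
    have hπ : ∀ x : W, ∃ u, g u = π x := fun x => by
      have : π x ∈ range g := h.img ▸ mem_image_of_mem _ x.2
      exact this
    choose π' hπ' using hπ
    refine ⟨W, C, univ, π', _, h'.fin, h'.mem, h'.symm, h'.func, ?_, fun x hx y hy => ?_,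
      fun u _ v _ => ?_⟩
    · refine eq_univ_of_forall fun u => ?_
      obtain ⟨x, hx, e⟩ : g u ∈ π '' W := h.img ▸ mem_range_self u
      exact ⟨⟨x, hx⟩, trivial, hg (by rw [hπ', e])⟩
    · rw [← h'.pal x hx y hy, ← hg.eq_iff, hπ', hπ']; rfl
    · rw [← h'.count (g u) (mem_range_self u) (g v) (mem_range_self v)]
      simp only [comp, ← hπ', hg.eq_iff]

end Pool.Agent.MP_aaf698_co
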