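import Mathlib
import Pool.Prelude.Def_F_458e953d

namespace Pool.Agent.MP_aaf698_co

/-- The palette of a vertex: the set of colours of the edges at it. -/
def palette {W E C : Type} (ends : E → Sym2 W) (c : E → C) (x : W) : Set C :=
  {a | ∃ e, x ∈ ends e ∧ c e = a}

/-- The loopless multigraph with vertices `W`, edges `E` and end map `ends`, properly coloured by
`c`, has palette multigraph isomorphic, through `φ`, to the multigraph on `V` in which `u` and `v`
are joined by `m u v` edges. -/
structure IsRealization {V W E C : Type} (m : V → V → ℕ) (ends : E → Sym2 W) (c : E → C)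
    (φ : V → Set C) : Prop where
  loopless : ∀ e, ¬ (ends e).IsDiag
  proper : ∀ e f x, e ≠ f → x ∈ ends e → x ∈ ends f → c e ≠ c f
  inj : Function.Injective φ
  range_eq : Set.range φ = Set.range (palette ends c)
  count : ∀ u v, {t ∈ Set.range ends | t.map (palette ends c) = s(φ u, φ v)}.ncard = m u v

/-- The multigraph with multiplicities `m` is the palette multigraph of a finite coloured
multigraph. -/
def Realizable {V : Type} (m : V → V → ℕ) : Prop :=
  ∃ (W E C : Type) (_ : Finite W) (_ : Finite E) (_ : Finite C) (ends : E → Sym2 W) (c : E → C)
    (φ : V → Set C), IsRealization m ends c φ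

/-- A matching that covers all or none of the vertices of each fibre of `π`. -/
def Saturated {V W : Type} (π : W → V) {K : SimpleGraph W} (M : K.Subgraph) : Prop :=
  M.IsMatching ∧ ∀ x y, π x = π y → (x ∈ M.verts ↔ y ∈ M.verts)

/-- The simple graph `K` is a splitting of the multigraph `m` along `π`, every edge lies in a
saturated matching, and saturated matchings separate the fibres. -/
structure GoodSplitting {V W : Type} (m : V → V → ℕ) (K : SimpleGraph W) (π : W → V) : Prop where
  surj : Function.Surjective π
  count : ∀ u v, {t ∈ K.edgeSet | t.map π = s(u, v)}.ncard = m u v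
  cover : ∀ x y, K.Adj x y → ∃ M : K.Subgraph, Saturated π M ∧ M.Adj x y
  separate : ∀ x y, π x ≠ π y → ∃ M : K.Subgraph, Saturated π M ∧ ¬ (x ∈ M.verts ↔ y ∈ M.verts)

open Classical in
/-- The recognition problem: code words of adjacency lists (each vertex lists its neighbours, with
repetition) of loopless multigraphs that are palette multigraphs. -/
noncomputable def PAL : List Bool → Bool :=
  fun x => decide (∃ L : List (List ℕ), x = N487b59b3.bitEncode L ∧
    (∀ u : Fin L.length, ∀ v ∈ L.get u, v < L.length ∧ v ≠ u) ∧
    (∀ u v : Fin L.length, (L.get u).count v.1 = (L.get v).count u.1) ∧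
    Realizable (fun u v : Fin L.length => (L.get u).count v.1))

end Pool.Agent.MP_aaf698_co
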