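import Pool.Agent.MP_aaf698_co.Core

namespace Pool.Agent.MP_aaf698_co

open Function Set

open Classical in
theorem realizable_simple {V : Type} [Finite V] (G : SimpleGraph V) :
    Realizable (fun u v => if G.Adj u v then 1 else 0) ↔
      ∀ u v, u ≠ v → ∃ w, w ≠ u ∧ w ≠ v ∧ (G.Adj u w ∨ G.Adj v w) := by
  rw [realizable_iff_core _ (fun u => by simp)]
  constructor
  · rintro ⟨X, C, W, π, R, h⟩ u v huv
    by_contra hc
    push Not at hc
    have adj : ∀ c x y, R c x y → G.Adj (π x) (π y) := fun c x y e => by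
      by_contra hn
      have := h.count (π x) trivial (π y) trivial
      have hf : {p : X × X | π p.1 = π x ∧ π p.2 = π y ∧ ∃ c, R c p.1 p.2}.Finite :=
        (h.fin.prod h.fin).subset fun p ⟨_, _, c, hc⟩ =>
          ⟨h.mem _ _ _ hc, h.mem _ _ _ (h.symm _ _ _ hc)⟩
      rw [if_neg hn, ncard_eq_zero hf] at this
      exact (this ▸ (⟨rfl, rfl, c, e⟩ : (x, y) ∈
        {p : X × X | π p.1 = π x ∧ π p.2 = π y ∧ ∃ c, R c p.1 p.2}) : (x, y) ∈ (∅ : Set (X × X)))
    obtain ⟨x, hx, rfl⟩ : u ∈ π '' W := h.img ▸ trivial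
    obtain ⟨y, hy, rfl⟩ : v ∈ π '' W := h.img ▸ trivial
    refine huv ((h.pal x hx y hy).2 fun c => ⟨fun ⟨z, e⟩ => ?_, fun ⟨z, e⟩ => ?_⟩)
    · have a := adj _ _ _ e
      have b : π z = π y := by
        by_contra b
        exact (hc _ a.ne' b).1 a
      exact ((h.pal z (h.mem _ _ _ (h.symm _ _ _ e)) y hy).1 b c).1 ⟨x, h.symm _ _ _ e⟩
    · have a := adj _ _ _ e
      have b : π z = π x := by
        by_contra b
        exact (hc _ b a.ne').2 a
      exact ((h.pal z (h.mem _ _ _ (h.symm _ _ _ e)) x hx).1 b c).1 ⟨y, h.symm _ _ _ e⟩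
  · intro h
    refine ⟨V, Sym2 V, univ, id, fun c x y => G.Adj x y ∧ s(x, y) = c, toFinite _,
      fun _ _ _ _ => trivial, fun c x y e => ⟨e.1.symm, Sym2.eq_swap.trans e.2⟩,
      fun c x y z a b => Sym2.congr_right.1 (a.2.trans b.2.symm), by simp,
      fun x _ y _ => ⟨fun (e : x = y) c => by rw [e], fun e => ?_⟩, fun u _ v _ => ?_⟩
    · by_contra hne
      obtain ⟨w, h1, h2, h3 | h3⟩ := h x y hne
      · obtain ⟨z, -, hz⟩ := (e s(x, w)).1 ⟨w, h3, rfl⟩
        rcases Sym2.eq_iff.1 hz with ⟨a, -⟩ | ⟨a, -⟩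
        · exact hne a.symm
        · exact h2 a.symm
      · obtain ⟨z, -, hz⟩ := (e s(y, w)).2 ⟨w, h3, rfl⟩
        rcases Sym2.eq_iff.1 hz with ⟨a, -⟩ | ⟨a, -⟩
        · exact hne a
        · exact h1 a.symm
    · split_ifs with a
      · rw [ncard_eq_one]
        refine ⟨(u, v), ?_⟩
        ext ⟨x, y⟩
        simp only [id, mem_ofPred_eq, mem_singleton_iff, Prod.mk.injEq, exists_and_left,
          exists_eq', and_true]
        exact ⟨fun e => ⟨e.1, e.2.1⟩, by rintro ⟨rfl, rfl⟩; exact ⟨rfl, rfl, a⟩⟩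
      · refine (congrArg ncard (eq_empty_of_forall_notMem ?_)).trans (ncard_empty _)
        rintro ⟨x, y⟩ ⟨rfl, rfl, c, e, -⟩
        exact a e

end Pool.Agent.MP_aaf698_co
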